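import Pool.Agent.Lib.MP_bd65ca_an_U.Kappa

/-!
# Exponential bounds for the Turán extremal problem, for all symmetric convex bodies

`κ_d` is the infimum of `|K| I(K)` over all symmetric convex bodies `K` of dimension `d`.  We prove
`(2/√3)^d ≤ κ_d ≤ (2c)^d` for all `d ≥ 2`, with a constant `c < 1`.  The lower bound is a bound for
`I(K)` for every body `K`; it follows from `(∫ F²)² ≤ ∫ F ∫ F³` and from Young's inequality with the
sharp constant.
-/

open MeasureTheory Real
open Pool.Agent.MPbd65ca Pool.Agent.MPbd65ca.Un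

namespace Pool.Agent.Results.MP_bd65ca_an.ExponentialBounds

theorem result : ∃ c : ℝ, 0 < c ∧ c < 1 ∧ ∀ d ≥ 2,
    (2 / √3) ^ d ≤ kappa d ∧ kappa d ≤ (2 * c) ^ d := by
  obtain ⟨c, hc0, hc1, h⟩ := kappa_le
  exact ⟨c, hc0, hc1, fun d hd => ⟨le_kappa d, h d hd⟩⟩

end Pool.Agent.Results.MP_bd65ca_an.ExponentialBounds
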