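import Pool.Agent.Lib.MP_bd65ca_an.Gen.Final

/-!
# The value of the Turán extremal problem is generically not `2 ^ d / |K|`, in all dimensions

For a symmetric convex body `K` in `ℝ ^ d` let `I(K)` be the infimum of the integrals of the
continuous integrable functions `F ≥ 0` with `F 0 ≥ 1` whose Fourier transform has support in `K`.
For every `d ≥ 2` the symmetric convex bodies `K` with `I(K) = 2 ^ d / |K|` form a nowhere dense
set: near every body there is a body `K` such that `I(K') < 2 ^ d / |K'|` for all bodies `K'`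
close to `K`, `K' = K` included.
-/

open MeasureTheory Pointwise Set
open Pool.Agent.MPbd65ca

namespace Pool.Agent.Results.MP_bd65ca_an.GenericFailure

theorem result (d : ℕ) (hd : 2 ≤ d) (K₀ : Set (E d)) (hK₀ : IsBody K₀) (η : ℝ) (hη : 0 < η)
    (hη1 : η < 1) :
    ∃ K : Set (E d), IsBody K ∧ (1 - η) • K₀ ⊆ K ∧ K ⊆ (1 + η) • K₀ ∧
      turan K < 2 ^ d / volume.real K ∧
      ∃ δ : ℝ, 0 < δ ∧ δ < 1 ∧ ∀ K' : Set (E d), IsBody K' → (1 - δ) • K ⊆ K' →
        K' ⊆ (1 + δ) • K → turan K' < 2 ^ d / volume.real K' :=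
  gen_generic hd K₀ hK₀ η hη hη1

end Pool.Agent.Results.MP_bd65ca_an.GenericFailure
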