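import Pool.Agent.Lib.MP_bd65ca_an_H.Stmt

/-!
# New Turán domains: bipyramids, double cones and the Hermitian operator-norm balls

The first part is the case of bipyramids over parallelepipeds; in the second part `dc a b` is the
double cone over the product of `b` unit balls of dimension three and a cube of dimension `a`; in
the third part `hb m` is the unit ball of the operator norm on the Hermitian `m × m` matrices, in
orthonormal coordinates.
-/

open MeasureTheory
open Pool.Agent.MPbd65ca Pool.Agent.MPbd65ca.Bp Pool.Agent.MPbd65ca.Sp Pool.Agent.MPbd65ca.Hm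

namespace Pool.Agent.Results.MP_bd65ca_an.NewTuranDomains

theorem result :
    (∀ (d : ℕ) (g : Fin (d + 1) → E (d + 1)), LinearIndependent ℝ g →
      TuranDomain (bipyramid g)) ∧
    (∀ a b : ℕ, AllImages (dc a b)) ∧
    ∀ d : ℕ, AllImages (hb (d + 1)) ∧ turan (hb (d + 1)) = hval (d + 1) :=
  ⟨fun _ _ hg => turan_bipyramid hg, fun a b A => dcone_final a b A,
    fun d => ⟨fun A => hb_final d A, (hb_value d).2⟩⟩

end Pool.Agent.Results.MP_bd65ca_an.NewTuranDomains
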