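import Pool.Agent.Lib.MP_bd65ca_an_Z.Class

/-!
# The Turán problem for zonotopes

For a symmetric convex body `K` in `ℝ ^ d` let `I(K)` be the infimum of the integrals of the
continuous integrable functions `F ≥ 0` with `F 0 ≥ 1` whose Fourier transform has support in `K`.
The expected value of `I(K)` is `2 ^ d / |K|`.  Here we show, for all zonotopes in all dimensions, that
`I(K) = 2 ^ d / |K|` if and only if `K` tiles the space by translations, if and only if every belt of
`K` has at most six facets; for all other zonotopes `I(K)` is strictly smaller.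
-/

open MeasureTheory Set
open scoped Pointwise
open Pool.Agent.MPbd65ca Pool.Agent.MPbd65ca.Zo

namespace Pool.Agent.Results.MP_bd65ca_an.ZonotopeClassification

variable {d n : ℕ}

/-- The zonotope with the generators `g`, the sum of the segments `[-g i, g i]`. -/
def zonotope (g : Fin n → E d) : Set (E d) :=
  {x | ∃ lam : Fin n → ℝ, (∀ i, |lam i| ≤ 1) ∧ x = ∑ i, lam i • g i}

/-- The zonotope has a belt with at least eight facets: there is a subspace `L` of codimension two
which is spanned by generators, and there are four generators which are pairwise linearly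
independent modulo `L`. -/
def LongBelt (g : Fin n → E d) : Prop :=
  ∃ L : Submodule ℝ (E d), Module.finrank ℝ L + 2 = d ∧ L = Submodule.span ℝ (range g ∩ L) ∧
    ∃ i : Fin 4 → Fin n, ∀ a b, a ≠ b → L ⊔ Submodule.span ℝ {g (i a), g (i b)} = ⊤

private theorem zonotope_eq (g : Fin n → E d) : zonotope g = zono g + zono g := by
  ext x
  constructor
  · rintro ⟨lam, h1, h2⟩
    have h3 : ∀ i, |lam i / 2| ≤ 1 / 2 := fun i => by
      rw [abs_div, abs_two]
      linarith [h1 i]
    refine ⟨_, ⟨fun i => lam i / 2, h3, rfl⟩, _, ⟨fun i => lam i / 2, h3, rfl⟩, ?_⟩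
    rw [h2]
    change ∑ i, (lam i / 2) • g i + ∑ i, (lam i / 2) • g i = ∑ i, lam i • g i
    rw [← Finset.sum_add_distrib]
    refine Finset.sum_congr rfl fun i _ => ?_
    rw [← add_smul]
    congr 1
    ring
  · rintro ⟨_, ⟨a, ha, rfl⟩, _, ⟨b, hb, rfl⟩, rfl⟩
    refine ⟨fun i => a i + b i, fun i => ?_, ?_⟩
    · have := abs_add_le (a i) (b i)
      linarith [ha i, hb i]
    · simp only [add_smul, Finset.sum_add_distrib]

private theorem not_longBelt (g : Fin n → E d) : ¬ LongBelt g ↔ NB g := by
  constructor
  · intro h L h1 h2 i h3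
    exact h ⟨L, h1, h2, i, h3⟩
  · rintro h ⟨L, h1, h2, i, h3⟩
    exact h L h1 h2 i h3

theorem result (g : Fin n → E d) (hg : Submodule.span ℝ (range g) = ⊤) :
    turan (zonotope g) ≤ 2 ^ d / volume.real (zonotope g) ∧
    List.TFAE [turan (zonotope g) = 2 ^ d / volume.real (zonotope g),
      Tiles (zonotope g), ¬ LongBelt g] := by
  obtain ⟨h1, h2, h3⟩ := zono_class g hg
  rw [zonotope_eq]
  refine ⟨h1, ?_⟩
  tfae_have 1 ↔ 2 := h2
  tfae_have 2 ↔ 3 := h3.trans (not_longBelt g).symm
  tfae_finish

end Pool.Agent.Results.MP_bd65ca_an.ZonotopeClassification
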